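import Pool.Agent.Work.MP_292d0f_os.Interface
import Pool.Agent.Work.MP_c42eb9_num.AltR

/-! Block ABS: the antisymmetrizer absorbs the antisymmetrizers of two blocks of factors. -/

open CategoryTheory MonoidalCategory
open Pool.Agent.Work.MP_c42eb9_num.Defs Pool.Agent.Work.MP_c42eb9_num Pool.VAS

namespace Pool.VASO

universe v u w

section

variable {A : Type u} [Category.{v} A] [MonoidalCategory A] [SymmetricCategory A]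
  [Preadditive A] [MonoidalPreadditive A] [Linear ℚ A] [MonoidalLinear ℚ A]

/-- one more factor on the left -/
def ABS_e (N : A) {W T Z : A} (e : Z ≅ W ⊗ T) : N ⊗ Z ≅ (N ⊗ W) ⊗ T :=
  whiskerLeftIso N e ≪≫ (α_ N W T).symm

omit [SymmetricCategory A] [Preadditive A] [MonoidalPreadditive A] [Linear ℚ A]
  [MonoidalLinear ℚ A] in
theorem ABS_one (N : A) {W T Z : A} (e : Z ≅ W ⊗ T) (B : W ⟶ W) (C : T ⟶ T) :
    (ABS_e N e).hom ≫ ((N ◁ B) ⊗ₘ C) ≫ (ABS_e N e).inv =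
      N ◁ (e.hom ≫ (B ⊗ₘ C) ≫ e.inv) := by
  simp [ABS_e, ← id_tensorHom]

omit [Preadditive A] [MonoidalPreadditive A] [Linear ℚ A] [MonoidalLinear ℚ A] in
theorem ABS_coh (N W T : A) :
    N ◁ (α_ N W T).inv ≫ (α_ N (N ⊗ W) T).inv ≫
      (((α_ N N W).inv ≫ (β_ N N).hom ▷ W ≫ (α_ N N W).hom) ▷ T) ≫
        (α_ N (N ⊗ W) T).hom ≫ N ◁ (α_ N W T).hom =
      (α_ N N (W ⊗ T)).inv ≫ (β_ N N).hom ▷ (W ⊗ T) ≫ (α_ N N (W ⊗ T)).hom := by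
  monoidal

omit [Preadditive A] [MonoidalPreadditive A] [Linear ℚ A] [MonoidalLinear ℚ A] in
theorem ABS_sw (N : A) {W T Z : A} (e : Z ≅ W ⊗ T) :
    (ABS_e N (ABS_e N e)).hom ≫
      (((α_ N N W).inv ≫ (β_ N N).hom ▷ W ≫ (α_ N N W).hom) ⊗ₘ 𝟙 T) ≫
        (ABS_e N (ABS_e N e)).inv =
      (α_ N N Z).inv ≫ (β_ N N).hom ▷ Z ≫ (α_ N N Z).hom := by
  have h1 : (ABS_e N (ABS_e N e)).hom = N ◁ N ◁ e.hom ≫ N ◁ (α_ N W T).inv ≫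
      (α_ N (N ⊗ W) T).inv := by
    simp [ABS_e]
  have h2 : (ABS_e N (ABS_e N e)).inv = (α_ N (N ⊗ W) T).hom ≫ N ◁ (α_ N W T).hom ≫
      N ◁ N ◁ e.inv := by
    simp [ABS_e]
  have h3 := ABS_coh N W T
  rw [h1, h2, tensorHom_id]
  have h4 : (N ◁ N ◁ e.hom ≫ N ◁ (α_ N W T).inv ≫ (α_ N (N ⊗ W) T).inv) ≫
      (((α_ N N W).inv ≫ (β_ N N).hom ▷ W ≫ (α_ N N W).hom) ▷ T) ≫
      (α_ N (N ⊗ W) T).hom ≫ N ◁ (α_ N W T).hom ≫ N ◁ N ◁ e.inv =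
      N ◁ N ◁ e.hom ≫ (N ◁ (α_ N W T).inv ≫ (α_ N (N ⊗ W) T).inv ≫
      (((α_ N N W).inv ≫ (β_ N N).hom ▷ W ≫ (α_ N N W).hom) ▷ T) ≫
        (α_ N (N ⊗ W) T).hom ≫ N ◁ (α_ N W T).hom) ≫ N ◁ N ◁ e.inv := by
    simp only [Category.assoc]
  rw [h4, h3]
  simp only [Category.assoc]
  rw [associator_inv_naturality_right_assoc, whisker_exchange_assoc,
    associator_naturality_right_assoc, ← whiskerLeft_comp, ← whiskerLeft_comp,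
    Iso.hom_inv_id]
  simp

/-- the step for general objects -/
theorem ABS_step (N : A) {W T Z : A} (e : Z ≅ W ⊗ T) (B : N ⊗ W ⟶ N ⊗ W) (C : T ⟶ T)
    (hC : C ≫ C = C) (d : ℚ) (hd : d + 1 ≠ 0) (P : N ⊗ (N ⊗ Z) ⟶ N ⊗ (N ⊗ Z))
    (hP : P ≫ N ◁ ((ABS_e N e).hom ≫ (B ⊗ₘ C) ≫ (ABS_e N e).inv) = P)
    (hs : P ≫ (α_ N N Z).inv ≫ (β_ N N).hom ▷ Z ≫ (α_ N N Z).hom = -P) :
    P ≫ (ABS_e N (ABS_e N e)).hom ≫
      (((d + 1)⁻¹ • (N ◁ B - d • (N ◁ B ≫ ((α_ N N W).inv ≫ (β_ N N).hom ▷ W ≫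
        (α_ N N W).hom) ≫ N ◁ B))) ⊗ₘ C) ≫ (ABS_e N (ABS_e N e)).inv = P := by
  have h1 := ABS_one N (ABS_e N e) B C
  have h2 := ABS_sw N e
  set s := (α_ N N W).inv ≫ (β_ N N).hom ▷ W ≫ (α_ N N W).hom with hsdef
  set e2 := ABS_e N (ABS_e N e) with he2
  set E := N ◁ ((ABS_e N e).hom ≫ (B ⊗ₘ C) ≫ (ABS_e N e).inv) with hE
  have h3 : (N ◁ B ≫ s ≫ N ◁ B) ⊗ₘ C = (N ◁ B ⊗ₘ C) ≫ (s ⊗ₘ 𝟙 T) ≫ (N ◁ B ⊗ₘ C) := by
    rw [tensorHom_comp_tensorHom, tensorHom_comp_tensorHom, Category.id_comp, hC]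
  have h4 : e2.hom ≫ ((N ◁ B ≫ s ≫ N ◁ B) ⊗ₘ C) ≫ e2.inv =
      E ≫ ((α_ N N Z).inv ≫ (β_ N N).hom ▷ Z ≫ (α_ N N Z).hom) ≫ E := by
    rw [h3, ← h2, ← h1]
    simp only [Category.assoc, Iso.inv_hom_id_assoc]
  have h5 : (((d + 1)⁻¹ • (N ◁ B - d • (N ◁ B ≫ s ≫ N ◁ B))) ⊗ₘ C) =
      (d + 1)⁻¹ • ((N ◁ B ⊗ₘ C) - d • ((N ◁ B ≫ s ≫ N ◁ B) ⊗ₘ C)) := by
    simp only [MonoidalCategory.tensorHom_def, MonoidalLinear.smul_whiskerRight, sub_eq_add_neg,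
      MonoidalPreadditive.add_whiskerRight, ← neg_smul, Linear.smul_comp,
      Preadditive.add_comp]
  rw [h5]
  have h6 : P ≫ e2.hom ≫ ((d + 1)⁻¹ • ((N ◁ B ⊗ₘ C) - d • ((N ◁ B ≫ s ≫ N ◁ B) ⊗ₘ C))) ≫
      e2.inv = (d + 1)⁻¹ • (P ≫ (e2.hom ≫ (N ◁ B ⊗ₘ C) ≫ e2.inv) -
        d • (P ≫ (e2.hom ≫ ((N ◁ B ≫ s ≫ N ◁ B) ⊗ₘ C) ≫ e2.inv))) := by
    simp only [Linear.smul_comp, Linear.comp_smul, Preadditive.sub_comp, Preadditive.comp_sub]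
  rw [h6, h4, h1, hP, ← Category.assoc P, hP, ← Category.assoc P, hs, Preadditive.neg_comp, hP,
    smul_neg, sub_neg_eq_add]
  have h7 : P + d • P = (d + 1) • P := by rw [add_smul, one_smul, add_comm]
  rw [h7, smul_smul, inv_mul_cancel₀ hd, one_smul]

omit [SymmetricCategory A] [Preadditive A] [MonoidalPreadditive A] [Linear ℚ A]
  [MonoidalLinear ℚ A] in
theorem ABS_zero {T U : A} (C : T ⟶ T) (P : U ⟶ T) (h : P ≫ C = P) :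
    P ≫ (λ_ T).symm.hom ≫ (𝟙 (𝟙_ A) ⊗ₘ C) ≫ (λ_ T).symm.inv = P := by
  rw [id_tensorHom, Iso.symm_hom, Iso.symm_inv, id_whiskerLeft]
  simp only [Category.assoc, Iso.inv_hom_id, Iso.inv_hom_id_assoc, Category.comp_id]
  exact h

omit [SymmetricCategory A] [Preadditive A] [MonoidalPreadditive A] [Linear ℚ A]
  [MonoidalLinear ℚ A] in
theorem ABS_first (N : A) {T : A} (C : T ⟶ T) (P : N ⊗ T ⟶ N ⊗ T) (h : P ≫ N ◁ C = P) :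
    P ≫ (ABS_e N (λ_ T).symm).hom ≫ (𝟙 (N ⊗ 𝟙_ A) ⊗ₘ C) ≫ (ABS_e N (λ_ T).symm).inv = P := by
  have h1 := ABS_one N (λ_ T).symm (𝟙 (𝟙_ A)) C
  have h2 : N ◁ ((λ_ T).symm.hom ≫ (𝟙 (𝟙_ A) ⊗ₘ C) ≫ (λ_ T).symm.inv) = N ◁ C := by
    congr 1
    rw [id_tensorHom, Iso.symm_hom, Iso.symm_inv, id_whiskerLeft]
    simp only [Category.assoc, Iso.inv_hom_id, Iso.inv_hom_id_assoc, Category.comp_id]
  rw [whiskerLeft_id, h2] at h1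
  rw [h1, h]

/-- the isomorphism -/
def ABS_iso (N : A) (a : ℕ) : ∀ b : ℕ, tpow N (a + b) ≅ tpow N b ⊗ tpow N a
  | 0 => (λ_ (tpow N a)).symm
  | b + 1 => ABS_e N (ABS_iso N a b)

theorem ABS_main (N : A) (a : ℕ) : ∀ b : ℕ,
    alt N (a + b) ≫ (ABS_iso N a b).hom ≫ (alt N b ⊗ₘ alt N a) ≫ (ABS_iso N a b).inv =
      alt N (a + b)
  | 0 => ABS_zero (alt N a) (alt N a) (alt_idem (exchE N) a)
  | 1 => ABS_first N (alt N a) (alt N (a + 1)) (alt_Lalt (exchE N) a)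
  | m + 2 => by
    have ih := ABS_main N a (m + 1)
    have hL : alt N (a + m + 2) ≫ N ◁ alt N (a + m + 1) = alt N (a + m + 2) :=
      alt_Lalt (exchE N) (a + m + 1)
    have hE : alt N (a + m + 2) ≫ N ◁ ((ABS_e N (ABS_iso N a m)).hom ≫
        (alt N (m + 1) ⊗ₘ alt N a) ≫ (ABS_e N (ABS_iso N a m)).inv) = alt N (a + m + 2) := by
      have h1 : N ◁ alt N (a + m + 1) ≫ N ◁ ((ABS_e N (ABS_iso N a m)).hom ≫
        (alt N (m + 1) ⊗ₘ alt N a) ≫ (ABS_e N (ABS_iso N a m)).inv) =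
          N ◁ alt N (a + m + 1) :=
        (whiskerLeft_comp N _ _).symm.trans (congrArg (fun x => N ◁ x) ih)
      refine (congrArg (fun x => x ≫ N ◁ ((ABS_e N (ABS_iso N a m)).hom ≫
        (alt N (m + 1) ⊗ₘ alt N a) ≫ (ABS_e N (ABS_iso N a m)).inv)) hL).symm.trans ?_
      exact (Category.assoc _ _ _).trans ((congrArg (fun x => alt N (a + m + 2) ≫ x) h1).trans hL)
    have h2 : ((m : ℚ) + 1) + 1 ≠ 0 := by positivity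
    have h3 := ABS_step N (ABS_iso N a m) (alt N (m + 1)) (alt N a) (alt_idem (exchE N) a)
      ((m : ℚ) + 1) h2 (alt N (a + m + 2)) hE (alt_exch (exchE N) (a + m))
    have h4 : alt N (m + 2) = ((m : ℚ) + 1 + 1)⁻¹ • (N ◁ alt N (m + 1) - ((m : ℚ) + 1) •
        (N ◁ alt N (m + 1) ≫ ((α_ N N (tpow N m)).inv ≫ (β_ N N).hom ▷ (tpow N m) ≫
        (α_ N N (tpow N m)).hom) ≫ N ◁ alt N (m + 1))) := by
      have h5 : (m : ℚ) + 1 + 1 = m + 2 := by ring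
      rw [h5]
      exact alt_succ_succ (exchE N) m
    refine Eq.trans ?_ h3
    exact congrArg (fun x => alt N (a + m + 2) ≫ (ABS_e N (ABS_e N (ABS_iso N a m))).hom ≫
      (x ⊗ₘ alt N a) ≫ (ABS_e N (ABS_e N (ABS_iso N a m))).inv) h4

end

theorem p_ABS (A : Type u) [Category.{v} A] [MonoidalCategory A] [SymmetricCategory A]
    [Preadditive A] [MonoidalPreadditive A] [Linear ℚ A] [MonoidalLinear ℚ A] :
    Stmt_ABS A := fun N a b => ⟨ABS_iso N a b, ABS_main N a b⟩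

end Pool.VASO
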