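import Pool.Agent.Work.MP_292d0f_os.Interface

/-! # Block BND: the proportion (helper38) -/

open CategoryTheory MonoidalCategory
open Pool.Agent.Work.MP_c42eb9_num.Defs Pool.Agent.Work.MP_c42eb9_num Pool.VAS

namespace Pool.VASO

universe v u w

/-- the function `φ` -/
def BND_phi (n l : ℕ) (x : ℕ) : ℕ := (x / (n + 2)) * (l + 1) + (x % (n + 2) - (n + 1 - l))

theorem BND_phi_eq (n l q s : ℕ) (hl : l ≤ n) (hs : s ≤ n + 2) :
    BND_phi n l (q * (n + 2) + s) = q * (l + 1) + (s - (n + 1 - l)) := by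
  unfold BND_phi
  rcases lt_or_eq_of_le hs with h | h
  · have h1 : (q * (n + 2) + s) / (n + 2) = q := by
      rw [Nat.add_comm, Nat.add_mul_div_right _ _ (by omega), Nat.div_eq_of_lt h, Nat.zero_add]
    have h2 : (q * (n + 2) + s) % (n + 2) = s := by
      rw [Nat.add_comm, Nat.add_mul_mod_self_right, Nat.mod_eq_of_lt h]
    rw [h1, h2]
  · subst h
    have h0 : q * (n + 2) + (n + 2) = (q + 1) * (n + 2) := by ring
    rw [h0, Nat.mul_div_cancel _ (by omega), Nat.mul_mod_left]
    have h1 : 0 - (n + 1 - l) = 0 := by omega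
    have h2 : n + 2 - (n + 1 - l) = l + 1 := by omega
    rw [h1, h2]
    ring

theorem BND_phi_one (n l : ℕ) (hl : l ≤ n) : BND_phi n l 1 = 0 := by
  have h := BND_phi_eq n l 0 1 hl (by omega)
  rw [Nat.zero_mul, Nat.zero_mul, Nat.zero_add, Nat.zero_add] at h
  rw [h]
  omega

theorem BND_phi_succ (n l : ℕ) (hl : l ≤ n) (x : ℕ) :
    BND_phi n l (x + 1) ≤ BND_phi n l x + 1 := by
  obtain ⟨q, s, hs, rfl⟩ : ∃ q s, s ≤ n + 1 ∧ x = q * (n + 2) + s := by
    refine ⟨x / (n + 2), x % (n + 2), ?_, ?_⟩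
    · have := Nat.mod_lt x (show 0 < n + 2 by omega)
      omega
    · have := Nat.div_add_mod x (n + 2)
      rw [Nat.mul_comm] at this
      exact this.symm
  rw [Nat.add_assoc, BND_phi_eq n l q (s + 1) hl (by omega), BND_phi_eq n l q s hl (by omega)]
  omega

section

variable (V : Type w) (A : Type u) [Category.{v} A] [MonoidalCategory A] [SymmetricCategory A]
  [Preadditive A] [MonoidalPreadditive A] [Linear ℚ A] [MonoidalLinear ℚ A]
  (M : ChowMotives V A) (K : K3Motive M)

theorem p_BND (hMAI : Stmt_MAI V A M K) (hMUL : Stmt_MUL V A M K) (hFZE : Stmt_FZE V A M K) :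
    Stmt_BND V A M K := by
  intro n l hl hx
  have part1 : ∀ q s : ℕ, s ≤ n + 2 →
      Fac K (q * (n + 2) + s) (q * (l + 1) + (s - (n + 1 - l))) := by
    intro q
    induction q with
    | zero =>
      intro s hs
      rw [Nat.zero_mul, Nat.zero_mul, Nat.zero_add, Nat.zero_add]
      by_cases h : n + 1 - l ≤ s
      · exact hx s h hs
      · have h1 : s - (n + 1 - l) = 0 := by omega
        rw [h1]
        exact hFZE s
    | succ q ih =>
      intro s hs
      have h1 := ih s hs
      have h2 := hx (n + 2) (by omega) le_rfl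
      have h3 : n + 2 - (n + 1 - l) = l + 1 := by omega
      rw [h3] at h2
      have h4 := hMUL _ _ _ _ h1 h2
      have h5 : (q + 1) * (n + 2) + s = q * (n + 2) + s + (n + 2) := by ring
      have h6 : (q + 1) * (l + 1) + (s - (n + 1 - l))
          = q * (l + 1) + (s - (n + 1 - l)) + (l + 1) := by ring
      rw [h5, h6]
      exact h4
  refine ⟨part1, ?_⟩
  intro q s n' l' hn hs hl'
  refine hMAI (BND_phi n l) (BND_phi_one n l hl) (BND_phi_succ n l hl) ?_ n' l' ?_
  · intro x
    have hs' : x % (n + 2) ≤ n + 2 := (Nat.mod_lt x (show 0 < n + 2 by omega)).le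
    have h1 := part1 (x / (n + 2)) (x % (n + 2)) hs'
    have h2 : x / (n + 2) * (n + 2) + x % (n + 2) = x := by
      have := Nat.div_add_mod x (n + 2)
      rwa [Nat.mul_comm] at this
    rw [h2] at h1
    exact h1
  · rw [hn, BND_phi_eq n l q s hl hs]
    exact hl'

end

end Pool.VASO
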