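import Pool.Agent.Work.MP_292d0f_os.Interface

set_option autoImplicit false

open CategoryTheory MonoidalCategory
open Pool.Agent.Work.MP_c42eb9_num.Defs Pool.Agent.Work.MP_c42eb9_num Pool.VAS

namespace Pool.VASO

universe v u w

section

variable (V : Type w) (A : Type u) [Category.{v} A] [MonoidalCategory A] [SymmetricCategory A]
  [Preadditive A] [MonoidalPreadditive A] [Linear ℚ A] [MonoidalLinear ℚ A]
  (M : ChowMotives V A) (K : K3Motive M)

/-- The isomorphism of the first tensor power with the object. -/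
def DIV_iso {C : Type u} [Category.{v} C] [MonoidalCategory C] (L : C) (n : ℕ) (h : n = 0) :
    tpow L (n + 1) ≅ L :=
  eqToIso (by rw [h]; rfl) ≪≫ ρ_ L

theorem p_DIV : Stmt_DIV V A M K := by
  classical
  set T := Finset.univ.filter (fun j => K.k j = 0) with hT
  have hcard : rho K = T.card := rfl
  let e : Fin (rho K) ≃ T := T.equivFin.symm
  let ι : Fin (rho K) → Fin K.m := fun i => (e i).1
  have hι : ∀ i, K.k (ι i) = 0 := fun i => (Finset.mem_filter.mp (e i).2).2
  have hinj : ∀ i j, i ≠ j → ι i ≠ ι j := by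
    intro i j hij h
    exact hij (e.injective (Subtype.ext h))
  refine ⟨fun i => (DIV_iso M.L (K.k (ι i)) (hι i)).inv ≫ K.dn (ι i),
    fun i => K.up (ι i) ≫ (DIV_iso M.L (K.k (ι i)) (hι i)).hom, ?_, ?_, ?_, ?_, ?_⟩
  · intro i
    dsimp only
    rw [Category.assoc, ← Category.assoc (K.dn (ι i)), K.dn_up, Category.id_comp,
      Iso.inv_hom_id]
  · intro i j hij
    dsimp only
    rw [Category.assoc, ← Category.assoc (K.dn (ι i)), K.dn_up_ne _ _ (hinj i j hij),
      Limits.zero_comp, Limits.comp_zero]
  · intro i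
    dsimp only
    rw [Category.assoc, K.dn_deg, Limits.comp_zero]
  · intro i
    dsimp only
    rw [Category.assoc, K.dn_pr, Limits.comp_zero]
  · intro i
    dsimp only
    rw [← Category.assoc, K.inc_up, Limits.zero_comp]

end

end Pool.VASO
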