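import Pool.Agent.Work.MP_292d0f_os.Interface

/-!
# Block FDM: Kimura finite-dimensional surfaces
-/

open CategoryTheory MonoidalCategory
open Pool.Agent.Work.MP_c42eb9_num.Defs Pool.Agent.Work.MP_c42eb9_num Pool.VAS

namespace Pool.VASO

universe v u w

section Gen

variable {A : Type u} [Category.{v} A] [MonoidalCategory A] [SymmetricCategory A]
  [Preadditive A] [MonoidalPreadditive A] [Linear ℚ A] [MonoidalLinear ℚ A]

omit [SymmetricCategory A] [Linear ℚ A] [MonoidalLinear ℚ A] in
theorem FDM_aux (T W : A) (P : T ⊗ W ⟶ T ⊗ W) (Q : W ⟶ W) (h : Q = 0) (h2 : T ◁ Q ≫ P = P) :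
    P = 0 := by
  rw [← h2, h, MonoidalPreadditive.whiskerLeft_zero, Limits.zero_comp]

theorem FDM_zero (N : A) (b : ℕ) (h : alt N b = 0) (x : ℕ) (hx : b ≤ x) : alt N x = 0 := by
  induction x, hx using Nat.le_induction with
  | base => exact h
  | succ n _ ih =>
    exact FDM_aux N (tpow N n) (alt N (n + 1)) (alt N n) ih (Lalt_alt (exchE N) n)

end Gen

section

variable (V : Type w) (A : Type u) [Category.{v} A] [MonoidalCategory A] [SymmetricCategory A]
  [Preadditive A] [MonoidalPreadditive A] [Linear ℚ A] [MonoidalLinear ℚ A]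
  (M : ChowMotives V A) (K : K3Motive M)

variable {V A M} in
omit [MonoidalPreadditive A] [MonoidalLinear ℚ A] in
theorem FDM_fac {x : ℕ} (h : alt K.t x = 0) (c : ℕ) : Fac K x c :=
  ⟨K.S, 0, 0, by rw [h, Limits.zero_comp]⟩

theorem p_FDM (hWIN : Stmt_WIN V A M K) (hMAI : Stmt_MAI V A M K) (hFZE : Stmt_FZE V A M K) :
    Stmt_FDM V A M K := by
  intro b hb2 hb hz
  have hz' : ∀ x, b + 1 ≤ x → alt K.t x = 0 := fun x hx => FDM_zero K.t (b + 1) hz x hx
  constructor
  · intro hQ
    by_cases hb3 : 3 ≤ b
    · exact hQ (b - 2) (b - 2) (by omega) le_rfl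
    · have hb2' : b = 2 := by omega
      subst hb2'
      have hr : 1 ≤ rho K := by
        obtain ⟨j, hj⟩ := K.divisor
        exact Finset.card_pos.2 ⟨j, Finset.mem_filter.2 ⟨Finset.mem_univ _, hj⟩⟩
      have hw := hWIN 1 1 le_rfl hr (hQ 1 1 le_rfl le_rfl)
      refine hMAI (fun x => min (x - 1) 1) rfl (fun x => ?_) (fun x => ?_) 0 0 ?_
      · show min (x + 1 - 1) 1 ≤ min (x - 1) 1 + 1
        omega
      · show Fac K x (min (x - 1) 1)
        by_cases hx1 : x ≤ 1
        · have h0 : min (x - 1) 1 = 0 := by omega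
          rw [h0]
          exact hFZE x
        · by_cases hx2 : x = 2
          · subst hx2
            exact hw 2 (by norm_num) (by norm_num)
          · exact FDM_fac K (hz' x (by omega)) _
      · show 0 < min (0 + 2 - 1) 1
        norm_num
  · intro hA
    have hr : b - 2 ≤ rho K := by omega
    have hw := hWIN (b - 2) (b - 2) le_rfl hr hA
    have hF : ∀ x, Fac K x (x - 1) := by
      intro x
      by_cases hx0 : x = 0
      · subst hx0
        exact hFZE 0
      · by_cases hxb : x ≤ b
        · have h1 := hw x (by omega) (by omega)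
          have h2 : x - (b - 2 + 1 - (b - 2)) = x - 1 := by omega
          rw [h2] at h1
          exact h1
        · exact FDM_fac K (hz' x (by omega)) _
    intro n l _ hl
    refine hMAI (fun x => x - 1) rfl (fun x => ?_) hF n l ?_
    · show x + 1 - 1 ≤ x - 1 + 1
      omega
    · show l < n + 2 - 1
      omega

end

end Pool.VASO
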