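import Pool.Agent.Work.MP_292d0f_os.Interface
import Pool.Agent.Work.MP_292d0f_va.B_POW

/-!
# Block FZE: the exterior powers are summands of motives of varieties
-/

open CategoryTheory MonoidalCategory
open Pool.Agent.Work.MP_c42eb9_num.Defs Pool.Agent.Work.MP_c42eb9_num Pool.VAS

namespace Pool.VASO

universe v u w

section

variable (V : Type w) (A : Type u) [Category.{v} A] [MonoidalCategory A] [SymmetricCategory A]
  [Preadditive A] [MonoidalPreadditive A] [Linear ℚ A] [MonoidalLinear ℚ A]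
  (M : ChowMotives V A) (K : K3Motive M)

theorem p_FZE : Stmt_FZE V A M K := by
  intro x
  obtain ⟨Z, ⟨θ⟩⟩ := p_POW V A M K.S x
  refine ⟨Z, tpowMap K.inc x ≫ θ.inv ≫ (λ_ (M.h Z)).inv,
    (λ_ (M.h Z)).hom ≫ θ.hom ≫ tpowMap K.pr x ≫ alt K.t x, ?_⟩
  have h1 : tpowMap K.inc x ≫ tpowMap K.pr x = 𝟙 _ := by
    rw [← tpowMap_comp, K.inc_pr, tpowMap_id]
  calc (tpowMap K.inc x ≫ θ.inv ≫ (λ_ (M.h Z)).inv) ≫
        (λ_ (M.h Z)).hom ≫ θ.hom ≫ tpowMap K.pr x ≫ alt K.t x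
      = (tpowMap K.inc x ≫ tpowMap K.pr x) ≫ alt K.t x := by
        simp only [Category.assoc, Iso.inv_hom_id_assoc]
    _ = alt K.t x := by rw [h1, Category.id_comp]

end

end Pool.VASO
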