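import Pool.Agent.Work.MP_292d0f_os.Interface
import Pool.Agent.Work.MP_292d0f_va.B_IND
import Pool.Agent.Work.MP_292d0f_va.B_TW
import Pool.Agent.Work.MP_292d0f_va.B_SHF

/-! # Block INS: the main step -/

open CategoryTheory MonoidalCategory
open Pool.Agent.Work.MP_c42eb9_num.Defs Pool.Agent.Work.MP_c42eb9_num Pool.VAS

namespace Pool.VASO

universe v u w

variable {V : Type w} {A : Type u} [Category.{v} A] [MonoidalCategory A] [SymmetricCategory A]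
  [Preadditive A] [MonoidalPreadditive A] [Linear ℚ A] [MonoidalLinear ℚ A]
  {M : ChowMotives V A} {K : K3Motive M}

theorem p_INS : Stmt_INS V A M K := by
  intro x c ⟨Y, f, g, hfg⟩ hT
  obtain ⟨Z, ⟨θ⟩⟩ := M.prod K.S Y
  obtain ⟨σ, hσ⟩ := (p_SHF (A := A)) (tpow M.L c) (M.h K.S) (M.h Y)
  have hpp : alt K.t x ≫ alt K.t x = alt K.t x := alt_idem (exchE K.t) x
  have hqq : alt K.t (x + 1) ≫ alt K.t (x + 1) = alt K.t (x + 1) :=
    alt_idem (exchE K.t) (x + 1)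
  have hpq : K.t ◁ alt K.t x ≫ alt K.t (x + 1) = alt K.t (x + 1) :=
    Lalt_alt (exchE K.t) x
  obtain ⟨W, F, G, ⟨X, hX⟩, hFG⟩ := IND_step (t := K.t) (H := M.h K.S) (T := tpow K.t x)
    (P := tpow M.L c) (Y' := M.h Y) (Z' := M.h Z) (inc := K.inc) (pr := K.pr) K.inc_pr
    (f := f) (g := g) (p := alt K.t x) hfg hpp (q := alt K.t (x + 1)) hqq hpq θ σ hσ
    (M.zeroCycles K.S Y) (fun z hz w => hT z hz w) ((p_TW V A M) c)
    (Q := fun W => ∃ X : V, Nonempty (W ≅ M.L ⊗ M.h X)) (fun e he => by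
      obtain ⟨X, a, b, hab⟩ := M.blochSrinivas Z Z e he
      exact ⟨_, a, b, ⟨X, ⟨Iso.refl _⟩⟩, hab⟩)
  obtain ⟨i⟩ := hX
  -- the isomorphism
  have j : tpow M.L c ⊗ W ≅ tpow M.L (c + 1) ⊗ M.h X :=
    whiskerLeftIso (tpow M.L c) i ≪≫ (α_ (tpow M.L c) M.L (M.h X)).symm ≪≫
      whiskerRightIso (β_ (tpow M.L c) M.L) (M.h X)
  exact ⟨X, F ≫ j.hom, j.inv ≫ G, IND_conj F G j hFG⟩

end Pool.VASO
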