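import Pool.Agent.Work.MP_292d0f_os.Interface
import Pool.Agent.Work.MP_292d0f_va.Final

/-!
# Block MAI: coniveau with a profile `φ` gives the slots below the profile
-/

open CategoryTheory MonoidalCategory
open Pool.Agent.Work.MP_c42eb9_num.Defs Pool.Agent.Work.MP_c42eb9_num Pool.VAS

namespace Pool.VASO

universe v u w

variable (V : Type w) (A : Type u) [Category.{v} A] [MonoidalCategory A] [SymmetricCategory A]
  [Preadditive A] [MonoidalPreadditive A] [Linear ℚ A] [MonoidalLinear ℚ A]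
  (M : ChowMotives V A) (K : K3Motive M)

/-- The auxiliary property of an endomorphism. -/
def KO (φ : ℕ → ℕ) (a : M.h K.S ⟶ M.h K.S) : Prop :=
  ∀ n l : ℕ, l < φ (n + 2) → ∀ z : tpow M.L l ⟶ tpow (M.h K.S) (n + 1),
    z ≫ alt (M.h K.S) (n + 1) = z → ∀ w : 𝟙_ A ⟶ K.t,
    ext (w ≫ K.inc) (z ≫ tpowMap a (n + 1)) ≫ alt (M.h K.S) (n + 2) = 0

variable {V A M K} in
theorem MAI_van {φ : ℕ → ℕ} (hF : ∀ x, Fac K x (φ x)) (x l : ℕ) (hl : l < φ x)
    (z : tpow M.L l ⟶ tpow K.t x) : z ≫ alt K.t x = 0 := by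
  obtain ⟨Y, f, g, hfg⟩ := hF x
  rw [← hfg, ← Category.assoc, k_NEG M l (φ x) Y (z ≫ f) hl, Limits.zero_comp]

theorem MAI_pet {φ : ℕ → ℕ} (hF : ∀ x, Fac K x (φ x)) : KO V A M K φ (K.pr ≫ K.inc) := by
  intro n l hl z hz w
  have h1 : ext (w ≫ K.inc) (z ≫ tpowMap (K.pr ≫ K.inc) (n + 1)) =
      ext w (z ≫ tpowMap K.pr (n + 1)) ≫ tpowMap K.inc (n + 2) := by
    rw [tpowMap_comp, ← Category.assoc z]
    exact PET_aux w K.inc (z ≫ tpowMap K.pr (n + 1)) (tpowMap K.inc (n + 1))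
  have h2 : ext w (z ≫ tpowMap K.pr (n + 1)) ≫ alt K.t (n + 2) = 0 :=
    MAI_van hF (n + 2) l hl (ext w (z ≫ tpowMap K.pr (n + 1)))
  rw [h1, Category.assoc, ← alt_nat K.inc (n + 2), ← Category.assoc, h2, Limits.zero_comp]

theorem MAI_stp {φ : ℕ → ℕ} (h1 : φ 1 = 0) (hφ : ∀ x, φ (x + 1) ≤ φ x + 1)
    (a : M.h K.S ⟶ M.h K.S) (j : Fin K.m) (ha : KO V A M K φ a) :
    KO V A M K φ (a + K.up j ≫ K.dn j) := by
  have hADD := p_ADD A
  have hTW := p_TW V A M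
  have hNEG := k_NEG M
  have hPOW := p_POW V A M
  have hBRL := p_BRL A
  have hEXP : Stmt_EXP A := p_EXP
  have hSWP := p_SWP A
  intro n l hl z hz w
  obtain ⟨k, hk⟩ : ∃ k, k = K.k j + 1 := ⟨_, rfl⟩
  have hk0 : 1 ≤ k := by omega
  have key : ∀ (p : M.h K.S ⟶ tpow M.L k) (i : tpow M.L k ⟶ M.h K.S),
      ext (w ≫ K.inc) (z ≫ tpowMap (a + p ≫ i) (n + 1)) ≫ alt (M.h K.S) (n + 2) = 0 := by
    intro p i
    have hL : ∀ m, M.h K.S ◁ alt (M.h K.S) (m + 1) ≫ alt (M.h K.S) (m + 2) =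
        alt (M.h K.S) (m + 2) := fun m => Lalt_alt (exchE (M.h K.S)) (m + 1)
    refine STP_gen (H := M.h K.S) (W := tpow (M.h K.S) n) (X := tpow M.L l)
      (alt (M.h K.S) (n + 1)) (alt (M.h K.S) (n + 2)) (hL n) (tpowMap (a + p ≫ i) (n + 1))
      (tpowMap a (n + 1)) ((p ≫ i) ⊗ₘ tpowMap a n) ((n : ℚ) + 1)
      (hEXP (M.h K.S) (tpow M.L k) (hBRL M.L M.braid k) a p i n) (w ≫ K.inc) z hz
      (ha n l hl z hz w) ?_
    by_cases hlk : l < k
    · exact STP_zero (H := M.h K.S) (W := tpow (M.h K.S) n) (X := tpow M.L l)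
        (alt (M.h K.S) (n + 2)) (w ≫ K.inc) z p i (tpowMap a n)
        (STP_neg V A M K hNEG hPOW l k n hlk _)
    · obtain ⟨l', rfl⟩ : ∃ l', l = k + l' := ⟨l - k, by omega⟩
      obtain ⟨n', rfl⟩ : ∃ n', n = n' + 1 := by
        rcases Nat.eq_zero_or_pos n with h0 | h0
        · exfalso
          subst h0
          have e1 := hφ 1
          norm_num at hl e1
          omega
        · exact ⟨n - 1, by omega⟩
      obtain ⟨e⟩ := hADD M.L k l'
      have hsurj := (hTW k (tpow M.L l') (tpow (M.h K.S) (n' + 1))).2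
      obtain ⟨z', hz'⟩ : ∃ z' : tpow M.L (k + l') ⟶ M.h K.S ⊗ tpow (M.h K.S) (n' + 1),
        z' = z := ⟨z, rfl⟩
      obtain ⟨z₁, hz₁⟩ := hsurj (e.inv ≫ z' ≫ p ▷ tpow (M.h K.S) (n' + 1))
      have hz₁' : tpow M.L k ◁ z₁ = e.inv ≫ z' ≫ p ▷ tpow (M.h K.S) (n' + 1) := hz₁
      have hza : z' ≫ (alt (M.h K.S) (n' + 2) : M.h K.S ⊗ tpow (M.h K.S) (n' + 1) ⟶
          M.h K.S ⊗ tpow (M.h K.S) (n' + 1)) = z' := by
        rw [hz']
        exact hz
      have hanti : z₁ ≫ alt (M.h K.S) (n' + 1) = z₁ := by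
        apply (hTW k _ _).1
        exact STP_anti (H := M.h K.S) (W := tpow (M.h K.S) (n' + 1)) (alt (M.h K.S) (n' + 2))
          (alt (M.h K.S) (n' + 1)) (alt_Lalt (exchE (M.h K.S)) (n' + 1)) z' hza p e z₁ hz₁'
      have h5 : z' ≫ p ▷ tpow (M.h K.S) (n' + 1) = e.hom ≫ tpow M.L k ◁ z₁ := by
        rw [hz₁', Iso.hom_inv_id_assoc]
      have hl' : l' < φ (n' + 2) := by
        have e1 : φ (n' + 1 + 2) ≤ φ (n' + 2) + 1 := hφ (n' + 2)
        omega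
      have h8 := ha n' l' hl' z₁ hanti w
      have h9 := STP_pos (H := M.h K.S) (W := tpow (M.h K.S) (n' + 1))
        (X := tpow M.L (k + l')) (Λ := tpow M.L k) (P := tpow M.L l')
        (alt (M.h K.S) (n' + 2)) (alt (M.h K.S) (n' + 3)) (exch (M.h K.S) (n' + 1))
        (exch_alt (exchE (M.h K.S)) (n' + 1)) (hL (n' + 1)) (w ≫ K.inc) z' p i
        (tpowMap a (n' + 1)) e z₁ h5
        (fun y₁ => hSWP (M.h K.S) (tpow M.L k) (tpow M.L l') (tpow (M.h K.S) (n' + 1))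
          (w ≫ K.inc) i y₁) h8
      rw [hz'] at h9
      exact h9
  subst hk
  exact key (K.up j) (K.dn j)

theorem MAI_sum {φ : ℕ → ℕ} (hstep : ∀ (a : M.h K.S ⟶ M.h K.S) (j : Fin K.m),
    KO V A M K φ a → KO V A M K φ (a + K.up j ≫ K.dn j)) (h0 : KO V A M K φ (K.pr ≫ K.inc)) :
    KO V A M K φ (𝟙 (M.h K.S) - K.deg ≫ K.pt) := by
  classical
  have key : ∀ s : Finset (Fin K.m),
      KO V A M K φ (K.pr ≫ K.inc + ∑ j ∈ s, K.up j ≫ K.dn j) := by
    intro s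
    induction s using Finset.induction_on with
    | empty => rw [Finset.sum_empty, add_zero]; exact h0
    | insert j s hj ih =>
      have e : K.pr ≫ K.inc + ∑ i ∈ insert j s, K.up i ≫ K.dn i =
          (K.pr ≫ K.inc + ∑ i ∈ s, K.up i ≫ K.dn i) + K.up j ≫ K.dn j := by
        rw [Finset.sum_insert hj]
        abel
      rw [e]
      exact hstep _ j ih
  have e : 𝟙 (M.h K.S) - K.deg ≫ K.pt = K.pr ≫ K.inc + ∑ j, K.up j ≫ K.dn j := by
    rw [← K.sum]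
    abel
  rw [e]
  exact key Finset.univ

theorem p_MAI : Stmt_MAI V A M K := by
  intro φ h1 hφ hF n l hl z hz hz0 w hw
  have hCTR : Stmt_CTR A := p_CTR A p_EXP
  have hWRI : Stmt_WRI V A M K := p_WRI V A M K
  have hk := MAI_sum V A M K (fun a j => MAI_stp V A M K h1 hφ a j) (MAI_pet V A M K hF)
  obtain ⟨w₀, hw₀⟩ := hWRI w hw
  have h3 := hCTR (M.h K.S) (tpow M.L l) K.deg K.pt n z hz hz0
  have h2 := hk n l hl z hz w₀
  rw [h3, ← hw₀] at h2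
  exact h2

end Pool.VASO
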