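import Pool.Agent.Work.MP_292d0f_os.Interface
import Pool.Agent.Work.MP_292d0f_va.B_ADD

/-!
# Theorem OneSlot (MP_292d0f_ag): block MUL
-/

open CategoryTheory MonoidalCategory
open Pool.Agent.Work.MP_c42eb9_num.Defs Pool.Agent.Work.MP_c42eb9_num Pool.VAS

namespace Pool.VASO

universe v u w

section

variable {A : Type u} [Category.{v} A] [MonoidalCategory A] [SymmetricCategory A]

/-- The exchange of the middle factors. -/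
def MUL_mid (P Q P' Q' : A) : (P ⊗ Q) ⊗ (P' ⊗ Q') ≅ (P ⊗ P') ⊗ (Q ⊗ Q') where
  hom := tensorμ P Q P' Q'
  inv := tensorδ P Q P' Q'
  hom_inv_id := tensorμ_tensorδ _ _ _ _
  inv_hom_id := tensorδ_tensorμ _ _ _ _

theorem MUL_gen {T T1 T2 Y1 Y2 W : A} (e : T ≅ T1 ⊗ T2) (a : T ⟶ T) (a1 : T1 ⟶ T1) (a2 : T2 ⟶ T2)
    (he : a ≫ e.hom ≫ (a1 ⊗ₘ a2) ≫ e.inv = a) (f1 : T1 ⟶ Y1) (g1 : Y1 ⟶ T1) (h1 : f1 ≫ g1 = a1)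
    (f2 : T2 ⟶ Y2) (g2 : Y2 ⟶ T2) (h2 : f2 ≫ g2 = a2) (κ : Y1 ⊗ Y2 ≅ W) :
    ∃ (f : T ⟶ W) (g : W ⟶ T), f ≫ g = a := by
  refine ⟨a ≫ e.hom ≫ (f1 ⊗ₘ f2) ≫ κ.hom, κ.inv ≫ (g1 ⊗ₘ g2) ≫ e.inv, ?_⟩
  have h : (f1 ⊗ₘ f2) ≫ (g1 ⊗ₘ g2) = a1 ⊗ₘ a2 := by
    rw [tensorHom_comp_tensorHom, h1, h2]
  rw [← h] at he
  simpa using he

end

section

variable (V : Type w) (A : Type u) [Category.{v} A] [MonoidalCategory A] [SymmetricCategory A]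
  [Preadditive A] [MonoidalPreadditive A] [Linear ℚ A] [MonoidalLinear ℚ A]
  (M : ChowMotives V A) (K : K3Motive M)

theorem p_MUL (hABS : Stmt_ABS A) : Stmt_MUL V A M K := by
  rintro a b c c' ⟨Y, f, g, hfg⟩ ⟨Y', f', g', hfg'⟩
  obtain ⟨e, he⟩ := hABS K.t a b
  obtain ⟨Z, ⟨θ⟩⟩ := M.prod Y' Y
  obtain ⟨η⟩ := p_ADD A M.L c c'
  exact ⟨Z, MUL_gen e _ _ _ he f' g' hfg' f g hfg
    (MUL_mid (tpow M.L c') (M.h Y') (tpow M.L c) (M.h Y) ≪≫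
      ((β_ (tpow M.L c') (tpow M.L c) ≪≫ η.symm) ⊗ᵢ θ.symm))⟩

end

end Pool.VASO
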