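import Pool.Agent.Work.MP_292d0f_os.Interface
import Pool.Agent.Work.MP_292d0f_va.B_LEI

/-! # Block PEL: removal of a factor (helper84) -/

open CategoryTheory MonoidalCategory
open Pool.Agent.Work.MP_c42eb9_num.Defs Pool.Agent.Work.MP_c42eb9_num Pool.VAS

namespace Pool.VASO

universe v u w

variable (A : Type u) [Category.{v} A] [MonoidalCategory A] [SymmetricCategory A]
  [Preadditive A] [MonoidalPreadditive A] [Linear ℚ A] [MonoidalLinear ℚ A]

theorem p_PEL : Stmt_PEL A := by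
  intro N L X d d' m y hL hdd hy h
  have hr : d ≫ (𝟙 N - d' ≫ d) = 0 := by
    rw [Preadditive.comp_sub, Category.comp_id, ← Category.assoc, hdd, Category.id_comp, sub_self]
  have h1 := p_LEI A N L N L X d d' (𝟙 N - d' ≫ d) m y hr
  have h0 : (d ⊗ₘ y : L ⊗ X ⟶ tpow N (m + 2)) ≫ alt N (m + 2) ≫
      (d' ⊗ₘ tpowMap (𝟙 N - d' ≫ d) (m + 1) : tpow N (m + 2) ⟶ L ⊗ tpow N (m + 1)) = 0 :=
    (Category.assoc _ _ _).symm.trans ((congrArg (fun f => f ≫
      (d' ⊗ₘ tpowMap (𝟙 N - d' ≫ d) (m + 1) : tpow N (m + 2) ⟶ L ⊗ tpow N (m + 1))) h).trans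
        Limits.zero_comp)
  have hc : ((m : ℚ) + 2)⁻¹ ≠ 0 := inv_ne_zero (by positivity)
  have h2 := (h1.symm.trans h0)
  have h3 : (d ≫ d') ⊗ₘ (y ≫ alt N (m + 1) ≫ tpowMap (𝟙 N - d' ≫ d) (m + 1)) = 0 :=
    (smul_eq_zero.1 h2).resolve_left hc
  rw [hdd, id_tensorHom] at h3
  have h4 := hL _ _ _ h3
  rw [alt_nat, ← Category.assoc, hy] at h4
  exact h4

end Pool.VASO
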