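import Pool.Agent.Work.MP_292d0f_os.Interface
import Pool.Agent.Work.MP_292d0f_va.B_SWP
import Pool.Agent.Work.MP_292d0f_va.B_TON

/-!
# Block VSL: one slot gives the vanishing of products (typed by helper86)
-/

set_option autoImplicit false

open CategoryTheory MonoidalCategory
open Pool.Agent.Work.MP_c42eb9_num.Defs Pool.Agent.Work.MP_c42eb9_num Pool.VAS

namespace Pool.VASO

universe v u w

section Gen

variable {A : Type u} [Category.{v} A] [MonoidalCategory A] [SymmetricCategory A]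
  [Preadditive A] [MonoidalPreadditive A] [Linear ℚ A] [MonoidalLinear ℚ A]

/-- The cycles `y s`. -/
def VSL_y {N t L : A} (d : ℕ → (L ⟶ N)) (inc : t ⟶ N) {c j : ℕ}
    (z₀ : tpow L c ⟶ tpow t (j + 1)) : (s : ℕ) → (tpow L (c + s) ⟶ tpow N (j + s + 1))
  | 0 => z₀ ≫ tpowMap inc (j + 1)
  | s + 1 => (d s ⊗ₘ VSL_y d inc z₀ s : L ⊗ tpow L (c + s) ⟶ N ⊗ tpow N (j + s + 1))

omit [SymmetricCategory A] [Preadditive A] [MonoidalPreadditive A] [Linear ℚ A]
  [MonoidalLinear ℚ A] in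
theorem VSL_tc {X Y Z X' Y' Z' : A} (a : X ⟶ Y) (b : X' ⟶ Y') (r : Y ⟶ Z) (T : Y' ⟶ Z') :
    (a ⊗ₘ b) ≫ (r ⊗ₘ T) = (a ≫ r) ⊗ₘ (b ≫ T) := tensorHom_comp_tensorHom _ _ _ _

omit [SymmetricCategory A] [Preadditive A] [MonoidalPreadditive A] [Linear ℚ A]
  [MonoidalLinear ℚ A] in
/-- (a) -/
theorem VSL_fix {N t L : A} (d : ℕ → (L ⟶ N)) (inc : t ⟶ N) {c j : ℕ}
    (z₀ : tpow L c ⟶ tpow t (j + 1)) (r : N ⟶ N) (hi : inc ≫ r = inc) :
    ∀ s : ℕ, (∀ u < s, d u ≫ r = d u) →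
      VSL_y d inc z₀ s ≫ tpowMap r (j + s + 1) = VSL_y d inc z₀ s := by
  intro s
  induction s with
  | zero =>
    intro _
    show (z₀ ≫ tpowMap inc (j + 1)) ≫ tpowMap r (j + 1) = z₀ ≫ tpowMap inc (j + 1)
    rw [Category.assoc, ← tpowMap_comp, hi]
  | succ s ih =>
    intro h
    show (d s ⊗ₘ VSL_y d inc z₀ s : L ⊗ tpow L (c + s) ⟶ N ⊗ tpow N (j + s + 1)) ≫
      (r ⊗ₘ tpowMap r (j + s + 1)) = (d s ⊗ₘ VSL_y d inc z₀ s)
    rw [VSL_tc, h s (Nat.lt_succ_self s), ih fun u hu => h u (Nat.lt_succ_of_lt hu)]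

/-- The contraction of a map which is fixed by `𝟙 - deg ≫ pt`. -/
theorem VSL_forget {N X : A} (deg : N ⟶ 𝟙_ A) (r : N ⟶ N) (hr : r ≫ deg = 0) (n : ℕ)
    (y : X ⟶ tpow N (n + 1)) (hy : y ≫ tpowMap r (n + 1) = y) :
    (y ≫ alt N (n + 1)) ≫ forget deg n = 0 := by
  have e1 : tpowMap r (n + 1) ≫ forget deg n = 0 := by
    show (r ⊗ₘ tpowMap r n : N ⊗ tpow N n ⟶ N ⊗ tpow N n) ≫
      (deg ▷ tpow N n ≫ (λ_ (tpow N n)).hom) = 0
    rw [← Category.assoc, ← tensorHom_id, VSL_tc, hr, TON_zero_tensor, Limits.zero_comp]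
  have e2 : y ≫ alt N (n + 1) = (y ≫ alt N (n + 1)) ≫ tpowMap r (n + 1) := by
    rw [Category.assoc, alt_nat, ← Category.assoc, hy]
  rw [e2, Category.assoc, e1, Limits.comp_zero]

omit [SymmetricCategory A] [Preadditive A] [MonoidalPreadditive A] [Linear ℚ A]
  [MonoidalLinear ℚ A] in
theorem VSL_ext {N P T T' M : A} (w : 𝟙_ A ⟶ N) (f : P ⟶ T) (r : N ⟶ M) (g : T ⟶ T') :
    ((λ_ P).inv ≫ (w ⊗ₘ f)) ≫ (r ⊗ₘ g) = (λ_ P).inv ≫ ((w ≫ r) ⊗ₘ (f ≫ g)) := by
  rw [Category.assoc, tensorHom_comp_tensorHom]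

theorem VSL_main (hPEL : Stmt_PEL A) (hSWP : Stmt_SWP A) {N t L : A} (d : ℕ → (L ⟶ N))
    (d' : ℕ → (N ⟶ L)) (inc : t ⟶ N) (pr : N ⟶ t) (deg : N ⟶ 𝟙_ A) (pt : 𝟙_ A ⟶ N)
    (hip : inc ≫ pr = 𝟙 t) (hid : inc ≫ deg = 0) (hpd : pt ≫ deg = 𝟙 _)
    (hcan : ∀ (P Q : A) (f : P ⟶ Q), L ◁ f = 0 → f = 0) (i j c : ℕ)
    (hdd : ∀ s < i, d s ≫ d' s = 𝟙 L) (hdn : ∀ s < i, ∀ u < i, u ≠ s → d u ≫ d' s = 0)
    (hdg : ∀ s < i, d s ≫ deg = 0) (hin : ∀ s < i, inc ≫ d' s = 0)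
    (hAt : ∀ z : tpow L (c + i) ⟶ tpow N (j + i + 1), z ≫ alt N (j + i + 1) = z →
      z ≫ forget deg (j + i) = 0 → ∀ w : 𝟙_ A ⟶ N, w ≫ deg = 0 →
      ext w z ≫ alt N (j + i + 2) = 0)
    (z₀ : tpow L c ⟶ tpow t (j + 1)) (w : 𝟙_ A ⟶ t) : ext w z₀ ≫ alt t (j + 2) = 0 := by
  have hw' : (w ≫ inc) ≫ deg = 0 := by rw [Category.assoc, hid, Limits.comp_zero]
  -- (b)
  have hb : ext (w ≫ inc) (VSL_y d inc z₀ i) ≫ alt N (j + i + 2) = 0 := by
    have hr : (𝟙 N - deg ≫ pt) ≫ deg = 0 := by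
      rw [Preadditive.sub_comp, Category.id_comp, Category.assoc, hpd, Category.comp_id, sub_self]
    have hfix : VSL_y d inc z₀ i ≫ tpowMap (𝟙 N - deg ≫ pt) (j + i + 1) =
        VSL_y d inc z₀ i := by
      refine VSL_fix d inc z₀ _ ?_ i ?_
      · rw [Preadditive.comp_sub, Category.comp_id, ← Category.assoc, hid, Limits.zero_comp,
          sub_zero]
      · intro u hu
        rw [Preadditive.comp_sub, Category.comp_id, ← Category.assoc, hdg u hu, Limits.zero_comp,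
          sub_zero]
    have h1 := hAt (VSL_y d inc z₀ i ≫ alt N (j + i + 1)) (by
        rw [Category.assoc]
        exact congrArg (fun x => VSL_y d inc z₀ i ≫ x) (alt_idem (exchE N) (j + i + 1)))
      (VSL_forget deg _ hr (j + i) _ hfix) (w ≫ inc) hw'
    have e1 : ext (w ≫ inc) (VSL_y d inc z₀ i ≫ alt N (j + i + 1)) =
        ext (w ≫ inc) (VSL_y d inc z₀ i) ≫ Lalt (exchE N) (j + i + 1) :=
      (TON_left (w ≫ inc) (VSL_y d inc z₀ i) (alt N (j + i + 1))).symm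
    have e2 : Lalt (exchE N) (j + i + 1) ≫ alt N (j + i + 2) = alt N (j + i + 2) :=
      Lalt_alt (exchE N) (j + i + 1)
    rw [e1, Category.assoc, e2] at h1
    exact h1
  -- (c)
  have hc : ∀ k s : ℕ, s + k = i →
      ext (w ≫ inc) (VSL_y d inc z₀ s) ≫ alt N (j + s + 2) = 0 := by
    intro k
    induction k with
    | zero =>
      intro s hs
      have : s = i := by omega
      subst this
      exact hb
    | succ k ih =>
      intro s hs
      have hsi : s < i := by omega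
      have h2 := ih (s + 1) (by omega)
      -- exchange
      have h3 : (show L ⊗ tpow L (c + s) ⟶ tpow N (j + s + 3) from
          (d s ⊗ₘ ext (w ≫ inc) (VSL_y d inc z₀ s))) ≫ alt N (j + s + 3) = 0 := by
        have e2 : ext (w ≫ inc) (VSL_y d inc z₀ (s + 1)) ≫ exch N (j + s + 1) =
            (show L ⊗ tpow L (c + s) ⟶ tpow N (j + s + 3) from
              (d s ⊗ₘ ext (w ≫ inc) (VSL_y d inc z₀ s))) := by
          refine (Category.assoc _ _ _).trans ?_
          exact hSWP N L (tpow L (c + s)) (tpow N (j + s + 1)) (w ≫ inc) (d s)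
            (VSL_y d inc z₀ s)
        have e3 : exch N (j + s + 1) ≫ alt N (j + s + 3) = -alt N (j + s + 3) :=
          exch_alt (exchE N) (j + s + 1)
        have e4 : ext (w ≫ inc) (VSL_y d inc z₀ (s + 1)) ≫ alt N (j + s + 3) = 0 := h2
        rw [← e2]
        refine (Category.assoc _ _ _).trans ?_
        refine (congrArg (fun x => ext (w ≫ inc) (VSL_y d inc z₀ (s + 1)) ≫ x) e3).trans ?_
        refine (Preadditive.comp_neg _ _).trans ?_
        exact (congrArg Neg.neg e4).trans neg_zero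
      refine hPEL N L (tpow L (c + s)) (d s) (d' s) (j + s + 1)
        (ext (w ≫ inc) (VSL_y d inc z₀ s)) hcan (hdd s hsi) ?_ h3
      have hf := VSL_fix d inc z₀ (𝟙 N - d' s ≫ d s) (by
          rw [Preadditive.comp_sub, Category.comp_id, ← Category.assoc, hin s hsi,
            Limits.zero_comp, sub_zero]) s (by
          intro u hu
          rw [Preadditive.comp_sub, Category.comp_id, ← Category.assoc,
            hdn s hsi u (by omega) (by omega), Limits.zero_comp, sub_zero])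
      have hw2 : (w ≫ inc) ≫ (𝟙 N - d' s ≫ d s) = w ≫ inc := by
        rw [Preadditive.comp_sub, Category.comp_id, Category.assoc, ← Category.assoc inc,
          hin s hsi, Limits.zero_comp, Limits.comp_zero, sub_zero]
      have e := VSL_ext (w ≫ inc) (VSL_y d inc z₀ s) (𝟙 N - d' s ≫ d s)
        (tpowMap (𝟙 N - d' s ≫ d s) (j + s + 1))
      rw [hw2, hf] at e
      exact e
  -- (d)
  have h0 : ext (w ≫ inc) (z₀ ≫ tpowMap inc (j + 1)) ≫ alt N (j + 2) = 0 := hc i 0 (by omega)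
  have h1 := congrArg (fun x => x ≫ tpowMap pr (j + 2)) h0
  have h2 : (ext (w ≫ inc) (z₀ ≫ tpowMap inc (j + 1)) ≫ alt N (j + 2)) ≫ tpowMap pr (j + 2) =
      ext w z₀ ≫ alt t (j + 2) := by
    have e1 : alt N (j + 2) ≫ tpowMap pr (j + 2) = tpowMap pr (j + 2) ≫ alt t (j + 2) :=
      alt_nat pr (j + 2)
    have e2 : ext (w ≫ inc) (z₀ ≫ tpowMap inc (j + 1)) ≫ tpowMap pr (j + 2) = ext w z₀ := by
      refine TON_two w inc pr z₀ (tpowMap inc (j + 1)) (tpowMap pr (j + 1)) hip ?_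
      rw [← tpowMap_comp, hip, tpowMap_id]
    rw [Category.assoc, e1, ← Category.assoc, e2]
  have h3 : (ext (w ≫ inc) (z₀ ≫ tpowMap inc (j + 1)) ≫ alt N (j + 2)) ≫
      tpowMap pr (j + 2) = 0 := h1.trans Limits.zero_comp
  rw [h2] at h3
  exact h3

end Gen

section Fin

variable (V : Type w) (A : Type u) [Category.{v} A] [MonoidalCategory A] [SymmetricCategory A]
  [Preadditive A] [MonoidalPreadditive A] [Linear ℚ A] [MonoidalLinear ℚ A]
  (M : ChowMotives V A) (K : K3Motive M)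

theorem p_VSL (hDIV : Stmt_DIV V A M K) (hPEL : Stmt_PEL A) : Stmt_VSL V A M K := by
  intro i j c hi hAt z₀ _ w
  obtain ⟨dF, dF', h1, h2, h3, _, h5⟩ := hDIV
  have hcan : ∀ (P Q : A) (f : P ⟶ Q), M.L ◁ f = 0 → f = 0 := by
    intro P Q f hf
    apply (M.cancel P Q).injective
    show M.L ◁ f = M.L ◁ 0
    rw [hf, MonoidalPreadditive.whiskerLeft_zero]
  refine VSL_main hPEL (p_SWP A) (fun s => if h : s < rho K then dF ⟨s, h⟩ else 0)
    (fun s => if h : s < rho K then dF' ⟨s, h⟩ else 0) K.inc K.pr K.deg K.pt K.inc_pr K.inc_deg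
    K.pt_deg hcan i j c ?_ ?_ ?_ ?_ hAt z₀ w
  · intro s hs
    have h : s < rho K := by omega
    simp only [h, dif_pos]
    exact h1 _
  · intro s hs u hu hne
    have h : s < rho K := by omega
    have h' : u < rho K := by omega
    simp only [h, h', dif_pos]
    refine h2 _ _ ?_
    intro he
    exact hne (Fin.mk.inj_iff.1 he)
  · intro s hs
    have h : s < rho K := by omega
    simp only [h, dif_pos]
    exact h3 _
  · intro s hs
    have h : s < rho K := by omega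
    simp only [h, dif_pos]
    exact h5 _

end Fin

end Pool.VASO
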