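import Pool.Agent.Work.MP_292d0f_os.Interface

/-!
# Theorem OneSlot (MP_292d0f_ag): block WIN, one slot gives the window
-/

open CategoryTheory MonoidalCategory
open Pool.Agent.Work.MP_c42eb9_num.Defs Pool.Agent.Work.MP_c42eb9_num Pool.VAS

namespace Pool.VASO

universe v u w

variable {V : Type w} {A : Type u} [Category.{v} A] [MonoidalCategory A] [SymmetricCategory A]
  [Preadditive A] [MonoidalPreadditive A] [Linear ℚ A] [MonoidalLinear ℚ A]
  {M : ChowMotives V A} {K : K3Motive M}

/-- The induction of WIN. -/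
theorem WIN_ind (hVSL : Stmt_VSL V A M K) (hINS : Stmt_INS V A M K) (hFZE : Stmt_FZE V A M K)
    (n l : ℕ) (hl : l ≤ n) (hr : l ≤ rho K) (hA : K.At n l) :
    ∀ c : ℕ, c ≤ l + 1 → Fac K (n + 1 - l + c) c := by
  intro c
  induction c with
  | zero =>
    intro _
    exact hFZE _
  | succ c ih =>
    intro hc
    have h1 : Fac K (n + 1 - l + c) c := ih (by omega)
    obtain ⟨j, hj⟩ : ∃ j, n + 1 - l + c = j + 1 := ⟨n - l + c, by omega⟩
    have h2 : j + (l - c) = n := by omega
    have h3 : c + (l - c) = l := by omega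
    have h4 : Tc K (n + 1 - l + c) c := by
      rw [hj]
      refine hVSL (l - c) j c (by omega) ?_
      rw [h2, h3]
      exact hA
    exact hINS _ c h1 h4

theorem p_WIN (hVSL : Stmt_VSL V A M K) (hINS : Stmt_INS V A M K) (hFZE : Stmt_FZE V A M K) :
    Stmt_WIN V A M K := by
  intro n l hl hr hA x hx1 hx2
  have h := WIN_ind hVSL hINS hFZE n l hl hr hA (x - (n + 1 - l)) (by omega)
  have h1 : n + 1 - l + (x - (n + 1 - l)) = x := by omega
  rwa [h1] at h

end Pool.VASO
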