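import Pool.Agent.Work.MP_292d0f_va.Defs

/-!
# One slot of Voisin's anti-symmetrization conjecture: definitions

`A` is the category of covariant Chow motives over `ℂ`, `K : K3Motive M` a K3 surface, see
`Pool.Agent.Work.MP_292d0f_va.Defs`; `K.At n l` is the statement of the conjecture for the surface,
`N = n + 1` and `l`.
-/

open CategoryTheory MonoidalCategory
open Pool.Agent.Work.MP_c42eb9_num.Defs Pool.VAS

namespace Pool.VASO

universe v u w

variable {V : Type w} {A : Type u} [Category.{v} A] [MonoidalCategory A] [SymmetricCategory A]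
  [Preadditive A] [Linear ℚ A] {M : ChowMotives V A}

/-- The exterior power `∧ ^ x t` is a direct summand of `L ^ c ⊗ h Y` for some smooth projective
`Y`. -/
def Fac (K : K3Motive M) (x c : ℕ) : Prop :=
  ∃ (Y : V) (f : tpow K.t x ⟶ tpow M.L c ⊗ M.h Y) (g : tpow M.L c ⊗ M.h Y ⟶ tpow K.t x),
    f ≫ g = alt K.t x

/-- The number of the summands `L` of the motive of the surface (the Picard number). -/
def rho (K : K3Motive M) : ℕ := (Finset.univ.filter fun j => K.k j = 0).card

/-- Products of classes in `CH_c (∧ ^ x t)` and in `CH_0 (t)` vanish in `∧ ^ (x + 1) t`. -/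
def Tc (K : K3Motive M) (x c : ℕ) : Prop :=
  ∀ z : tpow M.L c ⟶ tpow K.t x, z ≫ alt K.t x = z → ∀ w : 𝟙_ A ⟶ K.t,
    ext w z ≫ alt K.t (x + 1) = 0

end Pool.VASO
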