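import Pool.Agent.Work.MP_292d0f_os.Skel
import Pool.Agent.Work.MP_292d0f_os.B_ABS
import Pool.Agent.Work.MP_292d0f_os.B_BND
import Pool.Agent.Work.MP_292d0f_os.B_DIV
import Pool.Agent.Work.MP_292d0f_os.B_FDM
import Pool.Agent.Work.MP_292d0f_os.B_FZE
import Pool.Agent.Work.MP_292d0f_os.B_INS
import Pool.Agent.Work.MP_292d0f_os.B_MAI
import Pool.Agent.Work.MP_292d0f_os.B_MUL
import Pool.Agent.Work.MP_292d0f_os.B_PEL
import Pool.Agent.Work.MP_292d0f_os.B_VSL
import Pool.Agent.Work.MP_292d0f_os.B_WIN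

/-!
# Theorem OneSlot: the proof
-/

open CategoryTheory MonoidalCategory
open Pool.Agent.Work.MP_c42eb9_num.Defs Pool.Agent.Work.MP_c42eb9_num Pool.VAS

namespace Pool.VASO

universe v u w

variable {V : Type w} {A : Type u} [Category.{v} A] [MonoidalCategory A] [SymmetricCategory A]
  [Preadditive A] [MonoidalPreadditive A] [Linear ℚ A] [MonoidalLinear ℚ A]
  (M : ChowMotives V A) (K : K3Motive M)

theorem main :
    (∀ n l : ℕ, l ≤ n → l ≤ rho K →
      (K.At n l ↔ ∀ x, n + 1 - l ≤ x → x ≤ n + 2 → Fac K x (x - (n + 1 - l))) ∧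
      (K.At n l →
        (∀ q s : ℕ, s ≤ n + 2 → Fac K (q * (n + 2) + s) (q * (l + 1) + (s - (n + 1 - l)))) ∧
        ∀ q s n' l' : ℕ, n' + 2 = q * (n + 2) + s → s ≤ n + 2 →
          l' < q * (l + 1) + (s - (n + 1 - l)) → K.At n' l')) ∧
    ∀ b : ℕ, 2 ≤ b → b ≤ rho K + 2 → alt K.t (b + 1) = 0 →
      (K.Q1 ↔ K.At (b - 2) (b - 2)) := by
  have hFZE : Stmt_FZE V A M K := by first | exact p_FZE V A M K | exact p_FZE
  have hMAI : Stmt_MAI V A M K := p_MAI V A M K
  have hMUL : Stmt_MUL V A M K := by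
    first | exact p_MUL V A M K (p_ABS A) | exact p_MUL (p_ABS A)
  have hINS : Stmt_INS V A M K := by first | exact p_INS V A M K | exact p_INS
  have hVSL : Stmt_VSL V A M K := by
    first
      | exact p_VSL V A M K (by first | exact p_DIV V A M K | exact p_DIV) (by first | exact p_PEL A | exact p_PEL)
      | exact p_VSL (by first | exact p_DIV V A M K | exact p_DIV) (by first | exact p_PEL A | exact p_PEL)
  have hWIN : Stmt_WIN V A M K := by
    first | exact p_WIN V A M K hVSL hINS hFZE | exact p_WIN hVSL hINS hFZE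
  have hBND : Stmt_BND V A M K := by
    first | exact p_BND V A M K hMAI hMUL hFZE | exact p_BND hMAI hMUL hFZE
  have hFDM : Stmt_FDM V A M K := by
    first | exact p_FDM V A M K hWIN hMAI hFZE | exact p_FDM hWIN hMAI hFZE
  exact final hWIN hBND hFDM

end Pool.VASO
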