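import Pool.Agent.Work.MP_292d0f_os.Defs
import Pool.Agent.Work.MP_292d0f_va.Interface

/-!
# Theorem OneSlot (MP_292d0f_ag, note 3280): the blocks

Notation and library as in `Pool/Agent/Work/MP_292d0f_va/Interface.lean`: read its header and the
blocks `B_STP`, `B_TON`, `B_IND` there (general lemmas `STP_gen`, `STP_zero`, `STP_pos`,
`STP_anti`, `STP_neg`, `IND_step`, `IND_conj`, `TON_div`, ... may be imported and used). All
blocks of that folder are proved: `p_ADD`, `p_SHF`, `p_BRL`, `p_EXP`, `p_CTR`, `p_SWP`, `p_LEI`,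
`p_TW`, `p_NEG`, `p_POW`, `p_WRI` (signatures: `k_NEG`, `k_STP` in `Final.lean` there); import them
freely. `L = M.L`, `H = M.h K.S`, `t = K.t`.
-/

open CategoryTheory MonoidalCategory
open Pool.Agent.Work.MP_c42eb9_num.Defs Pool.Agent.Work.MP_c42eb9_num Pool.VAS

namespace Pool.VASO

universe v u w

section

variable (A : Type u) [Category.{v} A] [MonoidalCategory A] [SymmetricCategory A]
  [Preadditive A] [MonoidalPreadditive A] [Linear ℚ A] [MonoidalLinear ℚ A]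

/-- ABS (150 lines). The antisymmetrizer absorbs the antisymmetrizers of two blocks of factors.
Proof. Define the isomorphism `e b : tpow N (a + b) ≅ tpow N b ⊗ tpow N a` by recursion on `b`:
`e 0 = (λ_ (tpow N a)).symm`, `e (b + 1) = whiskerLeftIso N (e b) ≪≫ (α_ N (tpow N b) (tpow N a)).symm`
(`a + (b + 1) = (a + b) + 1` by `rfl`). Induction on `b`; let `R b = (e b).hom ≫ (alt N b ⊗ₘ alt N a)
≫ (e b).inv` and `P b = alt N (a + b)`, claim `P b ≫ R b = P b`. `b = 0`: `alt N 0 = 𝟙`, the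
conjugate of `𝟙 ⊗ₘ alt N a` by `λ` is `alt N a`, and `alt_idem`. `b = 1`: `alt N 1 = 𝟙`, the
conjugate is `N ◁ alt N a`; `alt_Lalt`. Step from `m + 1` to `m + 2`: put
`E = N ◁ R (m + 1)`; then `P (m+2) ≫ E = P (m+2) ≫ N ◁ P (m+1) ≫ N ◁ R (m+1) = P (m+2) ≫ N ◁ P (m+1)
= P (m+2)` by `alt_Lalt` and the induction hypothesis. By `alt_succ_succ`
`alt N (m + 2) = (m + 2)⁻¹ • (N ◁ alt N (m+1) - (m+1) • (N ◁ alt N (m+1) ≫ exch N m ≫ N ◁ alt N (m+1)))`,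
and `e (m + 2)` conjugates `(N ◁ alt N (m+1)) ⊗ₘ alt N a` into `E` and `exch N m ⊗ₘ 𝟙` into
`exch N (a + m)` (the exchange only moves the first two factors; coherence and naturality of `α`),
and `𝟙 ⊗ₘ alt N a` is idempotent, so
`R (m + 2) = (m + 2)⁻¹ • (E - (m + 1) • (E ≫ exch N (a + m) ≫ E))`. With
`P (m+2) ≫ exch N (a + m) = - P (m+2)` (`alt_exch`, file `AltR`):
`P ≫ R (m + 2) = (m + 2)⁻¹ • (P + (m + 1) • P) = P`. State the step for general objects `W` in the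
place of `tpow N m`, `T` in the place of `tpow N a` and maps `B : N ⊗ W ⟶ N ⊗ W`, `C : T ⟶ T`. -/
def Stmt_ABS : Prop := ∀ (N : A) (a b : ℕ), ∃ e : tpow N (a + b) ≅ tpow N b ⊗ tpow N a,
  alt N (a + b) ≫ e.hom ≫ (alt N b ⊗ₘ alt N a) ≫ e.inv = alt N (a + b)

/-- PEL (50 lines, uses `p_LEI`). Removal of a factor.
Proof. `r = 𝟙 N - d' ≫ d`, so `d ≫ r = 0`. `p_LEI` with `Λ = L`, `B = N`, `X = L`, `i = d`,
`p = d'`, `n = m`: composing the hypothesis with `d' ⊗ₘ tpowMap r (m + 1)` gives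
`0 = (m + 2)⁻¹ • ((d ≫ d') ⊗ₘ (y ≫ alt N (m + 1) ≫ tpowMap r (m + 1)))`, so
`L ◁ (y ≫ alt N (m + 1) ≫ tpowMap r (m + 1)) = 0`, hence `y ≫ alt ≫ tpowMap r = 0`; by `alt_nat`
this is `y ≫ tpowMap r ≫ alt = y ≫ alt`. -/
def Stmt_PEL : Prop := ∀ (N L X : A) (d : L ⟶ N) (d' : N ⟶ L) (m : ℕ)
  (y : X ⟶ tpow N (m + 1)), (∀ (P Q : A) (f : P ⟶ Q), L ◁ f = 0 → f = 0) → d ≫ d' = 𝟙 L →
    y ≫ tpowMap (𝟙 N - d' ≫ d) (m + 1) = y →
    (d ⊗ₘ y : L ⊗ X ⟶ tpow N (m + 2)) ≫ alt N (m + 2) = 0 → y ≫ alt N (m + 1) = 0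

end

section

variable (V : Type w) (A : Type u) [Category.{v} A] [MonoidalCategory A] [SymmetricCategory A]
  [Preadditive A] [MonoidalPreadditive A] [Linear ℚ A] [MonoidalLinear ℚ A]
  (M : ChowMotives V A) (K : K3Motive M)

/-- DIV (60 lines). Orthogonal divisor classes.
Proof. Enumerate `Finset.univ.filter (K.k · = 0)` by `Finset.equivFin`/`Finset.orderIsoOfFin`: an
injective map `ι : Fin (rho K) → Fin K.m` with `K.k (ι i) = 0`. For `j` with `K.k j = 0` there is an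
isomorphism `u j : tpow M.L (K.k j + 1) ≅ M.L` (`eqToIso` followed by `ρ_ M.L`); put
`d i = (u (ι i)).inv ≫ K.dn (ι i)`, `d' i = K.up (ι i) ≫ (u (ι i)).hom`. Use `K.dn_up`, `K.dn_up_ne`,
`K.dn_deg`, `K.dn_pr`, `K.inc_up`. -/
def Stmt_DIV : Prop := ∃ (d : Fin (rho K) → (M.L ⟶ M.h K.S)) (d' : Fin (rho K) → (M.h K.S ⟶ M.L)),
  (∀ i, d i ≫ d' i = 𝟙 M.L) ∧ (∀ i j, i ≠ j → d i ≫ d' j = 0) ∧ (∀ i, d i ≫ K.deg = 0) ∧
    (∀ i, d i ≫ K.pr = 0) ∧ ∀ i, K.inc ≫ d' i = 0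

/-- VSL (150 lines, uses DIV, PEL, `p_SWP`). One slot gives the vanishing of products.
Proof. Let `d`, `d'` be as in DIV, `z₀`, `w` as in `Tc K (j + 1) c`, `w' = w ≫ inc`. For `s ≤ rho K`
define `y s : tpow L (c + s) ⟶ tpow H (j + s + 1)` by `y 0 = z₀ ≫ tpowMap inc (j + 1)`,
`y (s + 1) = d s ⊗ₘ y s` (`tpow L (c + (s + 1)) = L ⊗ tpow L (c + s)`,
`tpow H (j + (s + 1) + 1) = H ⊗ tpow H (j + s + 1)` by `rfl`; take `d s = 0` for `s ≥ rho K`, or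
state the claims with existence of `y`). (a) If `r : H ⟶ H` has `inc ≫ r = inc` and `d u ≫ r = d u`
for all `u < s` then `y s ≫ tpowMap r (j + s + 1) = y s`; apply this to `r = 𝟙 - deg ≫ pt` and to
`r = 𝟙 - d' s ≫ d s`. (b) Let `s = i`, `z = y i ≫ alt H (j + i + 1)`. `z ≫ alt = z` (`alt_idem`).
`z ≫ forget deg = y i ≫ tpowMap r ≫ alt ≫ forget deg = y i ≫ alt ≫ tpowMap r ≫ forget deg = 0`
for `r = 𝟙 - deg ≫ pt`, since `alt_nat` and `tpowMap r (n + 1) ≫ forget deg n` starts with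
`r ≫ deg = 0` (`pt ≫ deg = 𝟙`). `K.At (j + i) (c + i)` gives `ext w' z ≫ alt H (j + i + 2) = 0`
(`w' ≫ deg = 0`), so `ext w' (y i) ≫ alt H (j + i + 2) = 0` by `Lalt_alt` (as in `TON_main`, step
h2). (c) Claim `ext w' (y s) ≫ alt H (j + s + 2) = 0` for `s = i, i - 1, …, 0`. From `s + 1` to `s`:
by `p_SWP` and `exch_alt` (as in `TON_main`, step h3) `(d s ⊗ₘ ext w' (y s)) ≫ alt H (j + s + 3) = 0`;
`ext w' (y s) ≫ tpowMap (𝟙 - d' s ≫ d s) = ext w' (y s)` by (a) and `w' ≫ d' s = 0`; PEL with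
`m = j + s + 1` (the twist with `L` is injective by `M.cancel`) gives the claim for `s`. (d) `s = 0`:
compose `ext w' (y 0) ≫ alt H (j + 2) = 0` with `tpowMap pr (j + 2)`; `alt_nat`, `tpowMap_comp`,
`inc ≫ pr = 𝟙` (as at the end of `TON_main`). -/
def Stmt_VSL : Prop := ∀ i j c : ℕ, i ≤ rho K → K.At (j + i) (c + i) → Tc K (j + 1) c

/-- INS (60 lines, uses `IND_step`). The main step: Bloch and Srinivas with coefficients `L ^ c`.
Proof. This is the induction step of `p_IND` (file `Pool/Agent/Work/MP_292d0f_va/B_IND.lean`) with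
`x` in the place of `n + 1` and `c` in the place of `n`: copy it. -/
def Stmt_INS : Prop := ∀ x c : ℕ, Fac K x c → Tc K x c → Fac K (x + 1) (c + 1)

/-- FZE (30 lines, uses `p_POW`). `c = 0`.
Proof. `θ : M.h Z ≅ tpow H x` from `p_POW`. `f = tpowMap inc x ≫ θ.inv ≫ (λ_ _).inv`,
`g = (λ_ _).hom ≫ θ.hom ≫ tpowMap pr x ≫ alt t x` (`tpow L 0 = 𝟙_ A` by `rfl`; `tpowMap_comp`,
`tpowMap_id`). -/
def Stmt_FZE : Prop := ∀ x : ℕ, Fac K x 0

/-- MUL (60 lines, uses ABS, `p_ADD`).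
Proof. `f ≫ g = alt t a`, `f' ≫ g' = alt t b`, `e` from ABS for `N = t`. Then
`alt t (a + b) = (alt t (a + b) ≫ e.hom ≫ (f' ⊗ₘ f)) ≫ ((g' ⊗ₘ g) ≫ e.inv)`, and
`(L^c' ⊗ h Y') ⊗ (L^c ⊗ h Y) ≅ (L^c ⊗ L^c') ⊗ (h Y' ⊗ h Y) ≅ tpow L (c + c') ⊗ h Z` by
`tensorμ`/braidings, `p_ADD` and `M.prod`. -/
def Stmt_MUL : Prop := ∀ a b c c' : ℕ, Fac K a c → Fac K b c' → Fac K (a + b) (c + c')

/-- MAI (150 lines, uses `p_ADD p_TW k_NEG p_POW p_BRL p_EXP p_SWP p_CTR p_WRI` and the general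
lemmas of `B_STP`).
Proof. (0) `l < φ x` and `z : tpow L l ⟶ tpow t x` imply `z ≫ alt t x = 0`: `= (z ≫ f) ≫ g` with
`z ≫ f : tpow L l ⟶ tpow L (φ x) ⊗ h Y` zero by NEG. Let `KO a` be the statement: for all `n l` with
`l < φ (n + 2)`, all `z` with `z ≫ alt H (n + 1) = z` and all `w : 𝟙_ A ⟶ t`:
`ext (w ≫ inc) (z ≫ tpowMap a (n + 1)) ≫ alt H (n + 2) = 0`. (1) `KO (pr ≫ inc)`: copy `p_PET`.
(2) `KO a → KO (a + up j ≫ dn j)`: copy the proof of `p_STP`. The only changes: in the case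
`l = k + l'` with `k = k j + 1 ≥ 1` one has `n = n' + 1`, for if `n = 0` then `l < φ 2 ≤ φ 1 + 1 = 1`;
and `l' < φ (n' + 2)`, since `k + l' < φ (n' + 3) ≤ φ (n' + 2) + 1`. (3) Sum over `j`: copy `p_SUM`.
(4) `KO (𝟙 - deg ≫ pt)` implies `K.At n l` for `l < φ (n + 2)`: copy `p_F31` (CTR, WRI). -/
def Stmt_MAI : Prop := ∀ φ : ℕ → ℕ, φ 1 = 0 → (∀ x, φ (x + 1) ≤ φ x + 1) →
  (∀ x, Fac K x (φ x)) → ∀ n l : ℕ, l < φ (n + 2) → K.At n l

/-- BND (100 lines, uses MAI, MUL, FZE). The proportion.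
Proof. Let `δ = n + 1 - l ≥ 1` and `φ x = (x / (n + 2)) * (l + 1) + (x % (n + 2) - δ)`. For `x < n + 2`
this is `x - δ`, `φ (x + (n + 2)) = φ x + (l + 1)`, and `φ (q * (n + 2) + s) = q * (l + 1) + (s - δ)` also for
`s = n + 2` (as `n + 2 - δ = l + 1`). `φ 1 = 0`. `φ (x + 1) ≤ φ x + 1`: write `x = q * (n + 2) + s`,
`s ≤ n + 1`, and `x + 1 = q * (n + 2) + (s + 1)`. `Fac K x (φ x)`: strong induction; for `x < n + 2` it
is the hypothesis if `δ ≤ x` and FZE if `x < δ`; for `x = x' + (n + 2)` it is MUL for `Fac K x' (φ x')`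
and `Fac K (n + 2) (l + 1)` (hypothesis for `x = n + 2`). Apply MAI. -/
def Stmt_BND : Prop := ∀ n l : ℕ, l ≤ n →
  (∀ x, n + 1 - l ≤ x → x ≤ n + 2 → Fac K x (x - (n + 1 - l))) →
  (∀ q s : ℕ, s ≤ n + 2 → Fac K (q * (n + 2) + s) (q * (l + 1) + (s - (n + 1 - l)))) ∧
  ∀ q s n' l' : ℕ, n' + 2 = q * (n + 2) + s → s ≤ n + 2 →
    l' < q * (l + 1) + (s - (n + 1 - l)) → K.At n' l'

/-- WIN (50 lines, uses VSL, INS, FZE). One slot gives the window.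
Proof. `δ = n + 1 - l ≥ 1`. Show `Fac K (δ + c) c` for `c ≤ l + 1` by induction on `c`: `c = 0` is FZE;
from `c ≤ l` to `c + 1`: INS with `Tc K (δ + c) c`, which is VSL for `i = l - c ≤ rho K`,
`j = δ + c - 1`: `j + i = n`, `c + i = l`. -/
def Stmt_WIN : Prop := ∀ n l : ℕ, l ≤ n → l ≤ rho K → K.At n l →
  ∀ x, n + 1 - l ≤ x → x ≤ n + 2 → Fac K x (x - (n + 1 - l))

/-- FDM (80 lines, uses WIN, MAI, FZE). Kimura finite-dimensional surfaces.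
Proof. (←) `n = l = b - 2`: WIN gives `Fac K x (x - 1)` for `1 ≤ x ≤ b`; for `x ≥ b + 1` `alt t x = 0`
(induction: `alt t (x + 1) = t ◁ alt t x ≫ alt t (x + 1)` by `Lalt_alt`), so `Fac K x (x - 1)` with
`f = 0`, `g = 0` (`Y = K.S`); `x = 0` is FZE. MAI with `φ x = x - 1` gives `K.At n l` for all
`l < n + 1`. (→) If `b ≥ 3` this is a case of `K.Q1`. If `b = 2`: by `K.Q1` `K.At 1 1`, `1 ≤ rho K`
(`K.divisor`), WIN for `n = l = 1` gives `Fac K x (x - 1)` for `1 ≤ x ≤ 3`; then MAI with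
`φ x = min (x - 1) 1`, `Fac K x 1` for `x ≥ 2` from MUL with FZE or by `alt t x = 0` for `x ≥ 3`, and
`0 < φ 2`. -/
def Stmt_FDM : Prop := ∀ b : ℕ, 2 ≤ b → b ≤ rho K + 2 → alt K.t (b + 1) = 0 →
  (K.Q1 ↔ K.At (b - 2) (b - 2))

end

end Pool.VASO
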