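import Pool.Agent.Work.MP_292d0f_os.Interface

/-!
# Theorem OneSlot: the composition of the blocks
-/

open CategoryTheory MonoidalCategory
open Pool.Agent.Work.MP_c42eb9_num.Defs Pool.Agent.Work.MP_c42eb9_num Pool.VAS

namespace Pool.VASO

universe v u w

variable {V : Type w} {A : Type u} [Category.{v} A] [MonoidalCategory A] [SymmetricCategory A]
  [Preadditive A] [MonoidalPreadditive A] [Linear ℚ A] [MonoidalLinear ℚ A]
  {M : ChowMotives V A} {K : K3Motive M}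

theorem final (hWIN : Stmt_WIN V A M K) (hBND : Stmt_BND V A M K) (hFDM : Stmt_FDM V A M K) :
    (∀ n l : ℕ, l ≤ n → l ≤ rho K →
      (K.At n l ↔ ∀ x, n + 1 - l ≤ x → x ≤ n + 2 → Fac K x (x - (n + 1 - l))) ∧
      (K.At n l →
        (∀ q s : ℕ, s ≤ n + 2 → Fac K (q * (n + 2) + s) (q * (l + 1) + (s - (n + 1 - l)))) ∧
        ∀ q s n' l' : ℕ, n' + 2 = q * (n + 2) + s → s ≤ n + 2 →
          l' < q * (l + 1) + (s - (n + 1 - l)) → K.At n' l')) ∧
    ∀ b : ℕ, 2 ≤ b → b ≤ rho K + 2 → alt K.t (b + 1) = 0 →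
      (K.Q1 ↔ K.At (b - 2) (b - 2)) := by
  refine ⟨fun n l hl hr => ⟨⟨hWIN n l hl hr, fun h => ?_⟩, fun h => hBND n l hl (hWIN n l hl hr h)⟩,
    hFDM⟩
  exact (hBND n l hl h).2 1 0 n l (by omega) (by omega) (by omega)

end Pool.VASO
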